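import Mathlib
import Pool.Graph.R_pool_sql_team_seeded_c8625f6e.K4H7.SN.Exp

/-!
# Plethysm by a monomial character, the sign, and the rational cone
-/

set_option autoImplicit false
set_option linter.unusedSectionVars false
set_option linter.unusedVariables false

namespace Pool.Agent.H23.TC

open Equiv Equiv.Perm MvPolynomial Pool.Agent.K4H7.SN
open scoped Nat

/-! ### Plethysm -/

section pleth

variable {C U α γ : Type} [Group C] [Fintype C] [Group U] [Fintype U] [Fintype α] [DecidableEq α]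
  [Fintype γ] [DecidableEq γ]

/-- the projection of the wreath product to the top group -/
def wrTop (C α : Type) [Group C] : Wr C α →* Perm α where
  toFun x := x.s
  map_one' := rfl
  map_mul' _ _ := rfl

/-- the pulled back wreath product -/
def pb (C : Type) [Group C] (ι : U →* Perm α) : Subgroup (Wr C α × U) :=
  ((wrTop C α).comp (MonoidHom.fst _ _)).eqLocus (ι.comp (MonoidHom.snd _ _))

/-- as a product of sets -/
def pbEquiv (C : Type) [Group C] (ι : U →* Perm α) : pb C ι ≃ U × (α → C) where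
  toFun x := (x.1.2, x.1.1.c)
  invFun x := ⟨(⟨x.2, ι x.1⟩, x.1), rfl⟩
  left_inv := by
    rintro ⟨⟨⟨c, s⟩, u⟩, h⟩
    have h' : s = ι u := h
    subst h'
    rfl
  right_inv _ := rfl

/-- **Plethysm of monomial characters.** -/
theorem FF_pleth (ι : U →* Perm α) (ψ : U →* ℂˣ) (κ : C →* Perm γ) (χ : C →* ℂˣ)
    [Fintype (pb C ι)] :
    FF (((wrHom (β := α) κ).comp (MonoidHom.fst _ _)).comp (pb C ι).subtype)
      ((((wrChar χ (1 : Perm α →* ℂˣ)).comp (MonoidHom.fst _ _)) *
        (ψ.comp (MonoidHom.snd _ _))).comp (pb C ι).subtype)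
      = aeval (fun n => pl n (FF κ χ)) (FF ι ψ) := by
  have hC : (Fintype.card C : ℂ) ≠ 0 := by exact_mod_cast Fintype.card_ne_zero
  have hcard : Fintype.card (pb C ι) = Fintype.card U * Fintype.card C ^ Fintype.card α := by
    rw [Fintype.card_congr (pbEquiv C ι), Fintype.card_prod, Fintype.card_fun]
  have hF : FF ι ψ = (Fintype.card U : ℂ)⁻¹ • ∑ u, ((ψ u : ℂˣ) : ℂ) • wt X (ι u) := rfl
  rw [hF, FF, hcard, ← Equiv.sum_comp (pbEquiv C ι).symm, Fintype.sum_prod_type, Nat.cast_mul,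
    mul_inv, mul_smul, map_smul, map_sum]
  congr 1
  rw [Finset.smul_sum]
  refine Finset.sum_congr rfl fun u _ => ?_
  rw [map_smul, aeval_wt]
  let χ' : C →* Lam :=
    (algebraMap ℂ Lam).toMonoidHom.comp ((Units.coeHom ℂ).comp χ)
  have h1 := sum_wr κ χ' (X : ℕ → Lam) (ι u)
  have h2 : ∑ c : α → C, (((((wrChar χ (1 : Perm α →* ℂˣ)).comp (MonoidHom.fst _ _)) *
        (ψ.comp (MonoidHom.snd _ _))).comp (pb C ι).subtype ((pbEquiv C ι).symm (u, c)) : ℂˣ) : ℂ) •
      wt (X : ℕ → Lam) ((((wrHom (β := α) κ).comp (MonoidHom.fst _ _)).comp (pb C ι).subtype)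
        ((pbEquiv C ι).symm (u, c)))
      = ((ψ u : ℂˣ) : ℂ) • ∑ c : α → C, (∏ k, χ' (c k)) * wt X (wr (ι u) (fun k => κ (c k))) := by
    rw [Finset.smul_sum]
    refine Finset.sum_congr rfl fun c _ => ?_
    have h3 : (((wrHom (β := α) κ).comp (MonoidHom.fst _ _)).comp (pb C ι).subtype)
        ((pbEquiv C ι).symm (u, c)) = wr (ι u) (fun k => κ (c k)) := rfl
    have h4 : ((((wrChar χ (1 : Perm α →* ℂˣ)).comp (MonoidHom.fst _ _)) *
        (ψ.comp (MonoidHom.snd _ _))).comp (pb C ι).subtype ((pbEquiv C ι).symm (u, c)) : ℂˣ)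
        = (1 * ∏ k, χ (c k)) * ψ u := rfl
    have h5 : ∏ k, χ' (c k) = algebraMap ℂ Lam (((∏ k, χ (c k) : ℂˣ)) : ℂ) := by
      rw [Units.coe_prod, map_prod]
      rfl
    rw [h3, h4, h5, one_mul, mul_comm (∏ k, χ (c k)) (ψ u), Units.val_mul, mul_smul,
      ← Algebra.smul_def]
  rw [h2, h1, smul_comm]
  congr 1
  have h6 : wt (fun n => (Fintype.card C : Lam) ^ (n - 1) *
      ∑ u, χ' u * wt (fun i => X (n * i)) (κ u)) (ι u)
      = wt (fun n => (Fintype.card C : Lam) ^ n * pl n (FF κ χ)) (ι u) := by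
    refine wt_congr _ fun n hn => ?_
    rw [pl_FF]
    obtain ⟨m, rfl⟩ : ∃ m, n = m + 1 := ⟨n - 1, by omega⟩
    rw [Nat.add_sub_cancel, pow_succ, mul_assoc]
    congr 1
    rw [mul_smul_comm, ← nsmul_eq_mul, ← Nat.cast_smul_eq_nsmul ℂ, smul_smul,
      inv_mul_cancel₀ hC, one_smul]
    refine Finset.sum_congr rfl fun u _ => ?_
    rw [Algebra.smul_def]
    rfl
  rw [h6, wt_scale, ← Nat.cast_pow, ← nsmul_eq_mul, ← Nat.cast_smul_eq_nsmul ℂ, Nat.cast_pow,
    smul_smul, inv_mul_cancel₀ (pow_ne_zero _ hC), one_smul]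

/-- the plethysm by a monomial character preserves the cone -/
theorem PP_pleth (κ : C →* Perm γ) (χ : C →* ℂˣ) {m : ℕ} {f : Lam} (hf : f ∈ PP m) :
    aeval (fun n => pl n (FF κ χ)) f ∈ PP (m * Fintype.card γ) := by
  classical
  refine AddSubmonoid.closure_induction
    (motive := fun f _ => aeval (fun n => pl n (FF κ χ)) f ∈ PP (m * Fintype.card γ)) ?_ ?_ ?_ hf
  · rintro f ⟨U, α, i1, i2, i3, i4, ι, ψ, hα, rfl⟩
    have : Fintype (pb C ι) := Fintype.ofEquiv _ (pbEquiv C ι).symm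
    rw [← FF_pleth ι ψ κ χ]
    exact FF_mem _ _ (by rw [Fintype.card_prod, hα])
  · rw [map_zero]
    exact AddSubmonoid.zero_mem _
  · intro x y _ _ h1 h2
    rw [map_add]
    exact AddSubmonoid.add_mem _ h1 h2

end pleth

/-! ### The sign -/

/-- the sign as a complex linear character -/
noncomputable def sg (α : Type) [Fintype α] [DecidableEq α] : Perm α →* ℂˣ :=
  (Units.map (Int.castRingHom ℂ).toMonoidHom).comp Perm.sign

lemma sg_wt {R : Type*} [CommRing R] [Algebra ℂ R] {α : Type} [Fintype α] [DecidableEq α]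
    (w : ℕ → R) (σ : Perm α) :
    ((sg α σ : ℂˣ) : ℂ) • wt w σ = (-1 : R) ^ Fintype.card α * wt (fun n => - w n) σ := by
  have h1 : (fun n => - w n) = (fun n => (-1 : R) * w n) := by funext n; ring
  have h2 : wt (fun n => - w n) σ = (-1 : R) ^ Multiset.card (parts σ) * wt w σ := by
    rw [h1, wt, wt, Multiset.prod_map_mul]
    simp
  have h3 : ((sg α σ : ℂˣ) : ℂ) = (-1 : ℂ) ^ (Fintype.card α + Multiset.card (parts σ)) := by
    have h4 : ((sg α σ : ℂˣ) : ℂ) = ((Perm.sign σ : ℤˣ) : ℤ) := rfl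
    have hle := sum_cycleType_le σ
    have h5 : Multiset.card (parts σ) = Multiset.card σ.cycleType +
        (Fintype.card α - σ.cycleType.sum) := by
      rw [parts, Multiset.card_add, Multiset.card_replicate]
    rw [h4, Perm.sign_of_cycleType, h5]
    push_cast
    have h6 : Fintype.card α + (Multiset.card σ.cycleType + (Fintype.card α - σ.cycleType.sum))
        = (σ.cycleType.sum + Multiset.card σ.cycleType)
          + 2 * (Fintype.card α - σ.cycleType.sum) := by omega
    rw [h6, pow_add _ _ (2 * _), pow_mul, neg_one_sq, one_pow, mul_one]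
  rw [h2, h3, ← mul_assoc, ← pow_add, Algebra.smul_def]
  simp

/-- the twist by the sign -/
noncomputable def om : Lam →ₐ[ℂ] Lam := aeval (fun n => (-1 : Lam) ^ (n + 1) * X n)

lemma om_X (n : ℕ) : om (X n) = (-1 : Lam) ^ (n + 1) * X n := by rw [om, aeval_X]

lemma om_wt {α : Type} [Fintype α] [DecidableEq α] (σ : Perm α) :
    om (wt X σ) = ((sg α σ : ℂˣ) : ℂ) • wt X σ := by
  rw [sg_wt, om, aeval_wt, ← wt_scale]
  congr 1
  funext n
  ring

lemma om_FF {U α : Type} [Group U] [Fintype U] [Fintype α] [DecidableEq α] (ι : U →* Perm α)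
    (ψ : U →* ℂˣ) : om (FF ι ψ) = FF ι (((sg α).comp ι) * ψ) := by
  rw [FF, FF, map_smul, map_sum]
  congr 1
  refine Finset.sum_congr rfl fun u _ => ?_
  rw [map_smul, om_wt, smul_smul, MonoidHom.mul_apply, MonoidHom.comp_apply, Units.val_mul,
    mul_comm]

lemma PP_om {m : ℕ} {f : Lam} (hf : f ∈ PP m) : om f ∈ PP m := by
  refine AddSubmonoid.closure_induction (motive := fun f _ => om f ∈ PP m) ?_ ?_ ?_ hf
  · rintro f ⟨U, α, i1, i2, i3, i4, ι, ψ, hα, rfl⟩
    rw [om_FF]
    exact FF_mem _ _ hα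
  · rw [map_zero]
    exact AddSubmonoid.zero_mem _
  · intro x y _ _ h1 h2
    rw [map_add]
    exact AddSubmonoid.add_mem _ h1 h2

/-- the elementary symmetric functions -/
noncomputable def ee (m : ℕ) : Lam := om (hh m)

lemma ee_mem (m : ℕ) : ee m ∈ PP m := PP_om (hh_mem m)

/-- `(-1)^m e_m` is the complete symmetric function at the weights `-X` -/
lemma neg_ee (w : ℕ → Lam) (m : ℕ) :
    hw (fun n => - w n) m = (-1 : Lam) ^ m * aeval w (ee m) := by
  rw [hw_eq, ee, om]
  have h : aeval (fun n => - w n) (hh m)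
      = (-1 : Lam) ^ m * aeval w (aeval (fun n => (-1 : Lam) ^ (n + 1) * X n) (hh m)) := by
    rw [hh, HH, map_smul, map_smul, map_smul, map_sum, map_sum, map_sum, mul_smul_comm,
      Finset.mul_sum]
    congr 1
    refine Finset.sum_congr rfl fun σ _ => ?_
    rw [aeval_wt, aeval_wt]
    have h1 : aeval w (wt (fun n => (-1 : Lam) ^ (n + 1) * X n) σ)
        = wt (fun n => (-1 : Lam) ^ (n + 1) * w n) σ := by
      rw [wt, wt, map_multiset_prod, Multiset.map_map]
      congr 1
      refine Multiset.map_congr rfl fun n _ => ?_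
      simp
    have h2 := wt_scale (-1 : Lam) (fun n => (-1 : Lam) ^ (n + 1) * w n) σ
    rw [Fintype.card_fin] at h2
    rw [h1, ← h2]
    congr 1
    funext n
    have : (-1 : Lam) ^ n * ((-1) ^ (n + 1) * w n) = ((-1) * (-1)) ^ n * (-1) * w n := by
      rw [mul_pow]; ring
    rw [this]
    simp
  exact h

/-! ### The rational cone -/

/-- nonnegative combinations of monomial characters of degree `n` -/
noncomputable def RP (n : ℕ) : AddSubmonoid Lam := AddSubmonoid.closure
  {f | ∃ c : ℝ, 0 ≤ c ∧ ∃ g ∈ PP n, f = (c : ℂ) • g}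

lemma RP_of {n : ℕ} {f : Lam} (h : f ∈ PP n) : f ∈ RP n :=
  AddSubmonoid.subset_closure ⟨1, zero_le_one, f, h, by simp⟩

lemma RP_smul {n : ℕ} {f : Lam} (h : f ∈ RP n) {c : ℝ} (hc : 0 ≤ c) : (c : ℂ) • f ∈ RP n := by
  refine AddSubmonoid.closure_induction (motive := fun f _ => (c : ℂ) • f ∈ RP n) ?_ ?_ ?_ h
  · rintro f ⟨d, hd, g, hg, rfl⟩
    refine AddSubmonoid.subset_closure ⟨c * d, mul_nonneg hc hd, g, hg, ?_⟩
    rw [smul_smul, Complex.ofReal_mul]
  · rw [smul_zero]
    exact AddSubmonoid.zero_mem _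
  · intro x y _ _ h1 h2
    rw [smul_add]
    exact AddSubmonoid.add_mem _ h1 h2

lemma RP_mul {a b : ℕ} {f g : Lam} (hf : f ∈ RP a) (hg : g ∈ RP b) : f * g ∈ RP (a + b) := by
  refine AddSubmonoid.closure_induction (motive := fun f _ => f * g ∈ RP (a + b)) ?_ ?_ ?_ hf
  · rintro f ⟨c, hc, f', hf', rfl⟩
    refine AddSubmonoid.closure_induction (motive := fun g _ => (c : ℂ) • f' * g ∈ RP (a + b))
      ?_ ?_ ?_ hg
    · rintro g ⟨d, hd, g', hg', rfl⟩
      refine AddSubmonoid.subset_closure ⟨c * d, mul_nonneg hc hd, f' * g', PP_mul hf' hg', ?_⟩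
      rw [smul_mul_smul_comm, Complex.ofReal_mul]
    · rw [mul_zero]
      exact AddSubmonoid.zero_mem _
    · intro x y _ _ h1 h2
      rw [mul_add]
      exact AddSubmonoid.add_mem _ h1 h2
  · rw [zero_mul]
    exact AddSubmonoid.zero_mem _
  · intro x y _ _ h1 h2
    rw [add_mul]
    exact AddSubmonoid.add_mem _ h1 h2

lemma RP_mul' {a b n : ℕ} {f g : Lam} (hf : f ∈ RP a) (hg : g ∈ RP b) (h : a + b = n) :
    f * g ∈ RP n := h ▸ RP_mul hf hg

/-- all coefficients are nonnegative combinations of monomial characters -/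
def RC (R : Ser) : Prop := ∀ n, PowerSeries.coeff n R ∈ RP n

lemma RC_of {R : Ser} (h : CC R) : RC R := fun n => RP_of (h n)

lemma RC_zero : RC 0 := RC_of CC_zero

lemma RC_one : RC 1 := RC_of CC_one

lemma RC_add {R S : Ser} (h : RC R) (h' : RC S) : RC (R + S) := fun n => by
  rw [map_add]
  exact AddSubmonoid.add_mem _ (h n) (h' n)

lemma RC_mul {R S : Ser} (h : RC R) (h' : RC S) : RC (R * S) := fun n => by
  rw [PowerSeries.coeff_mul]
  refine AddSubmonoid.sum_mem _ fun p hp => ?_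
  exact RP_mul' (h p.1) (h' p.2) (Finset.HasAntidiagonal.mem_antidiagonal.mp hp)

lemma RC_smul {R : Ser} (h : RC R) {c : ℝ} (hc : 0 ≤ c) : RC ((c : ℂ) • R) := fun n => by
  rw [PowerSeries.coeff_smul]
  exact RP_smul (h n) hc

lemma RC_monomial {n : ℕ} {f : Lam} (h : f ∈ RP n) : RC (PowerSeries.monomial n f) := by
  intro m
  rw [PowerSeries.coeff_monomial]
  split_ifs with h1
  · rw [h1]; exact h
  · exact AddSubmonoid.zero_mem _

lemma RC_geo {u v R : Ser} (hu : RC u) (hv : RC v) (hu0 : PowerSeries.constantCoeff u = 0)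
    (hR : R = v + u * R) : RC R := by
  intro n
  induction n using Nat.strong_induction_on with
  | _ n ih =>
    rw [hR, map_add, PowerSeries.coeff_mul]
    refine AddSubmonoid.add_mem _ (hv n) (AddSubmonoid.sum_mem _ ?_)
    rintro ⟨i, j⟩ hp
    have hp' := Finset.HasAntidiagonal.mem_antidiagonal.mp hp
    simp only at hp' ⊢
    rcases Nat.eq_zero_or_pos i with rfl | hi
    · rw [PowerSeries.coeff_zero_eq_constantCoeff_apply, hu0, zero_mul]
      exact AddSubmonoid.zero_mem _
    · exact RP_mul' (hu i) (ih j (by omega)) hp'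

end Pool.Agent.H23.TC
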