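import Mathlib
import Pool.Agent.H23.TC.Pleth

/-!
# Symmetric functions of small degree
-/

set_option autoImplicit false
set_option linter.unusedSectionVars false
set_option linter.unusedVariables false
set_option linter.unusedSimpArgs false
set_option linter.style.haveILetI false

namespace Pool.Agent.H23.TC

open MvPolynomial Pool.Agent.K4H7.SN

/-- the fraction field -/
abbrev KK := FractionRing Lam

/-- the embedding in the fraction field -/
noncomputable def em : Lam →+* KK := algebraMap Lam KK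

lemma em_inj {f g : Lam} (h : em f = em g) : f = g := FaithfulSMul.algebraMap_injective Lam KK h

lemma two_h2 (f : Lam) : 2 * h2 f = f * f + pl 2 f := by
  rw [h2, mul_smul_comm, two_mul, smul_add, half_add']

lemma two_e2 (f : Lam) : 2 * e2 f = f * f - pl 2 f := by
  rw [e2, mul_smul_comm, two_mul, smul_add, half_add']

lemma em_h2 (f : Lam) : em (h2 f) = (em f ^ 2 + em (pl 2 f)) / 2 := by
  have h := congrArg em (two_h2 f)
  rw [map_mul, map_add, map_mul, map_ofNat] at h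
  linear_combination h / 2

lemma em_e2 (f : Lam) : em (e2 f) = (em f ^ 2 - em (pl 2 f)) / 2 := by
  have h := congrArg em (two_e2 f)
  rw [map_mul, map_sub, map_mul, map_ofNat] at h
  linear_combination h / 2

section hom

variable (f : Lam →+* KK)

lemma hom_hh_rec (m : ℕ) : (m : KK) * f (hh m)
    = ∑ i ∈ Finset.range m, f (X (i + 1)) * f (hh (m - 1 - i)) := by
  have h := congrArg f (hh_rec m)
  rw [map_sum] at h
  simp only [map_mul] at h
  rw [← h, Algebra.smul_def, map_mul, map_natCast, map_natCast]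

lemma hom_hh0 : f (hh 0) = 1 := by rw [hh_zero, map_one]

lemma hom_hh1 : f (hh 1) = f (X 1) := by
  have h := hom_hh_rec f 1
  simp [Finset.sum_range_succ, hom_hh0] at h
  exact h

lemma hom_hh2 : f (hh 2) = (f (X 1) ^ 2 + f (X 2)) / 2 := by
  have h := hom_hh_rec f 2
  simp [Finset.sum_range_succ, hom_hh0, hom_hh1] at h
  linear_combination h / 2

lemma hom_hh3 : f (hh 3) = (2 * f (X 3) + f (X 1) ^ 3 + 3 * f (X 1) * f (X 2)) / 6 := by
  have h := hom_hh_rec f 3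
  simp [Finset.sum_range_succ, hom_hh0, hom_hh1, hom_hh2] at h
  linear_combination h / 3

lemma hom_hh4 : f (hh 4) = (6 * f (X 4) + 3 * f (X 2) ^ 2 + f (X 1) ^ 4
    + 6 * f (X 1) ^ 2 * f (X 2) + 8 * f (X 1) * f (X 3)) / 24 := by
  have h := hom_hh_rec f 4
  simp [Finset.sum_range_succ, hom_hh0, hom_hh1, hom_hh2, hom_hh3] at h
  linear_combination h / 4

lemma hom_ee (m : ℕ) : f (ee m) = (f.comp (om : Lam →+* Lam)) (hh m) := rfl

lemma hom_om_X (i : ℕ) : (f.comp (om : Lam →+* Lam)) (X i) = (-1) ^ (i + 1) * f (X i) := by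
  change f (om (X i)) = _
  rw [om_X, map_mul, map_pow, map_neg, map_one]

lemma hom_ee2 : f (ee 2) = (f (X 1) ^ 2 - f (X 2)) / 2 := by
  rw [hom_ee, hom_hh2, hom_om_X, hom_om_X]
  ring

lemma hom_ee3 : f (ee 3) = (2 * f (X 3) + f (X 1) ^ 3 - 3 * f (X 1) * f (X 2)) / 6 := by
  rw [hom_ee, hom_hh3, hom_om_X, hom_om_X, hom_om_X]
  ring

lemma hom_ee4 : f (ee 4) = (-6 * f (X 4) + 3 * f (X 2) ^ 2 + f (X 1) ^ 4
    - 6 * f (X 1) ^ 2 * f (X 2) + 8 * f (X 1) * f (X 3)) / 24 := by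
  rw [hom_ee, hom_hh4, hom_om_X, hom_om_X, hom_om_X, hom_om_X]
  ring

end hom

/-! ### The character of the cyclic group of order three -/

lemma three_pl_LL (i : ℕ) : 3 * pl i (LL 3) = X i ^ 3 - X (i * 3) := by
  have h := pl_LL i 3 (by norm_num)
  have h1 : (1 : ℂ) ∈ mu 3 := by rw [mem_mu (by norm_num)]; norm_num
  have hs := sum_mu_eq 3 (by norm_num)
  rw [if_neg (by norm_num), ← Finset.add_sum_erase _ _ h1] at hs
  rw [← Finset.add_sum_erase _ _ h1, orderOf_one] at h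
  have h2 : ∀ x ∈ (mu 3).erase 1, x • (X (i * orderOf x) : Lam) ^ (3 / orderOf x)
      = x • (X (i * 3) : Lam) := by
    intro x hx
    rw [Finset.mem_erase, mem_mu (by norm_num)] at hx
    have : orderOf x = 3 := by
      haveI : Fact (Nat.Prime 3) := ⟨Nat.prime_three⟩
      exact orderOf_eq_prime hx.2 hx.1
    rw [this]
    simp
  rw [Finset.sum_congr rfl h2, ← Finset.sum_smul,
    show ∑ x ∈ (mu 3).erase 1, x = -1 by linear_combination hs] at h
  simp only [mul_one, Nat.div_one, one_smul, neg_smul] at h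
  rw [Algebra.smul_def, map_natCast] at h
  push_cast at h
  rw [h]
  ring

/-- the character of the cyclic group of order three -/
noncomputable def bb : Lam := LL 3

lemma hom_bb (f : Lam →+* KK) : f bb = (f (X 1) ^ 3 - f (X 3)) / 3 := by
  have h := congrArg f (three_pl_LL 1)
  rw [pl_one, map_mul, map_sub, map_pow, map_ofNat] at h
  rw [bb]
  linear_combination h / 3

/-! ### The generators of the even part -/

lemma hom_qn_rec (f : Lam →+* KK) (n : ℕ) : (n : KK) * f (qn n)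
    = ∑ i ∈ Finset.range n, f (BB (n - i)) * f (qn i) := by
  have h := congrArg f (qn_rec n)
  rw [map_sum] at h
  simp only [map_mul, map_natCast] at h
  exact h

lemma BB1 : BB 1 = X 1 := by rw [BB_odd (by norm_num), pow_one]
lemma BB2 : BB 2 = X 2 := by
  have := BB_even 1 one_ne_zero
  rw [mul_one] at this
  rw [this, BB1, pl_X]
lemma BB3 : BB 3 = X 1 ^ 3 := by rw [BB_odd (by norm_num)]
lemma BB4 : BB 4 = X 4 := by
  have := BB_even 2 two_ne_zero
  rw [show 2 * 2 = 4 from rfl] at this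
  rw [this, BB2, pl_X]
lemma BB5 : BB 5 = X 1 ^ 5 := by rw [BB_odd (by norm_num)]
lemma BB6 : BB 6 = X 2 ^ 3 := by
  have := BB_even 3 three_ne_zero
  rw [show 2 * 3 = 6 from rfl] at this
  rw [this, BB3, map_pow, pl_X]

lemma em_qn0 : em (qn 0) = 1 := by rw [qn, map_one]

lemma em_qn1 : em (qn 1) = em (X 1) := by
  have h := hom_qn_rec em 1
  simp [Finset.sum_range_succ, em_qn0, BB1] at h
  exact h

lemma em_qn2 : em (qn 2) = (em (X 2) + em (X 1) ^ 2) / 2 := by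
  have h := hom_qn_rec em 2
  simp [Finset.sum_range_succ, em_qn0, em_qn1, BB1, BB2] at h
  linear_combination h / 2

lemma em_qn3 : em (qn 3) = (em (X 1) ^ 3 + em (X 1) * em (X 2)) / 2 := by
  have h := hom_qn_rec em 3
  simp [Finset.sum_range_succ, em_qn0, em_qn1, em_qn2, BB1, BB2, BB3] at h
  linear_combination h / 3

lemma em_qn4 : em (qn 4) = (2 * em (X 4) + em (X 2) ^ 2 + 3 * em (X 1) ^ 4
    + 2 * em (X 1) ^ 2 * em (X 2)) / 8 := by
  have h := hom_qn_rec em 4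
  simp [Finset.sum_range_succ, em_qn0, em_qn1, em_qn2, em_qn3, BB1, BB2, BB3, BB4] at h
  linear_combination h / 4

lemma em_qn5 : em (qn 5) = (3 * em (X 1) ^ 5 + 2 * em (X 1) ^ 3 * em (X 2)
    + 2 * em (X 1) * em (X 4) + em (X 1) * em (X 2) ^ 2) / 8 := by
  have h := hom_qn_rec em 5
  simp [Finset.sum_range_succ, em_qn0, em_qn1, em_qn2, em_qn3, em_qn4, BB1, BB2, BB3, BB4, BB5] at h
  linear_combination h / 5

lemma em_qn6 : em (qn 6) = (3 * em (X 2) ^ 3 + 2 * em (X 2) * em (X 4) + 5 * em (X 1) ^ 6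
    + 3 * em (X 1) ^ 4 * em (X 2) + 2 * em (X 1) ^ 2 * em (X 4)
    + em (X 1) ^ 2 * em (X 2) ^ 2) / 16 := by
  have h := hom_qn_rec em 6
  simp [Finset.sum_range_succ, em_qn0, em_qn1, em_qn2, em_qn3, em_qn4, em_qn5,
    BB1, BB2, BB3, BB4, BB5, BB6] at h
  linear_combination h / 6

/-- the coefficients of the generators of the even part -/
noncomputable def gg (n : ℕ) : Lam := X 1 * qn (n - 1) - qn n

lemma em_gg (n : ℕ) : em (gg n) = em (X 1) * em (qn (n - 1)) - em (qn n) := by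
  rw [gg, map_sub, map_mul]

lemma gg1 : gg 1 = 0 := by
  apply em_inj
  rw [em_gg, em_qn1, em_qn0, map_zero]
  ring

lemma gg2 : gg 2 = ee 2 := by
  apply em_inj
  rw [em_gg, em_qn1, em_qn2, hom_ee2]
  ring

lemma gg3 : gg 3 = 0 := by
  apply em_inj
  rw [em_gg, em_qn2, em_qn3, map_zero]
  ring

lemma gg5 : gg 5 = 0 := by
  apply em_inj
  rw [em_gg, em_qn4, em_qn5, map_zero]
  ring

lemma em_gg4 : em (gg 4) = em (X 1) * em (qn 3) - em (qn 4) := em_gg 4

lemma em_gg6 : em (gg 6) = em (X 1) * em (qn 5) - em (qn 6) := em_gg 6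

/-! ### Identities -/

/-- `p₁ e₂ = s₂₁ + e₃` -/
lemma I1 : X 1 * ee 2 = bb + ee 3 := by
  apply em_inj
  simp only [map_add, map_mul, map_pow, hom_ee2, hom_ee3, hom_bb]
  ring

lemma I2 : X 1 ^ 3 = hh 3 + ee 3 + 2 * bb := by
  apply em_inj
  simp only [map_add, map_mul, map_pow, map_ofNat, hom_hh3, hom_ee3, hom_bb]
  ring

lemma I3 : X 1 * ee 3 + gg 4 = ee 2 * hh 2 + ee 4 := by
  apply em_inj
  simp only [map_add, map_mul, map_pow, hom_hh2, hom_ee2, hom_ee3, hom_ee4, hom_bb, em_gg4,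
    em_qn3, em_qn4]
  ring

lemma I4 : X 1 ^ 2 * ee 3 + X 1 * gg 4 = ee 2 * bb + ee 2 * hh 3 + X 1 * ee 4 := by
  apply em_inj
  simp only [map_add, map_mul, map_pow, hom_hh2, hom_hh3, hom_ee2, hom_ee3, hom_ee4, hom_bb,
    em_gg4, em_qn3, em_qn4]
  ring

lemma em_e2_hom (f : Lam) : em (e2 f) = (em f ^ 2 - (em.comp (pl 2 : Lam →+* Lam)) f) / 2 :=
  em_e2 f

lemma em_h2_hom (f : Lam) : em (h2 f) = (em f ^ 2 + (em.comp (pl 2 : Lam →+* Lam)) f) / 2 :=
  em_h2 f

lemma hom_pl_X (i : ℕ) : (em.comp (pl 2 : Lam →+* Lam)) (X i) = em (X (2 * i)) := by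
  change em (pl 2 (X i)) = _
  rw [pl_X]

lemma I5 : X 1 * ee 2 * hh 3 + X 1 ^ 2 * ee 4 + gg 6
    = e2 bb + ee 2 * hh 4 + 2 * hh 2 * ee 4 + hh 3 * bb + e2 (ee 3) := by
  apply em_inj
  simp only [map_add, map_mul, map_pow, map_ofNat, em_e2_hom, hom_hh2, hom_hh3, hom_hh4, hom_ee2,
    hom_ee3, hom_ee4, hom_bb, em_gg6, em_qn5, em_qn6, hom_pl_X]
  norm_num
  ring

lemma I6 : X 1 * hh 3 = hh 4 + gg 4 := by
  apply em_inj
  simp only [map_add, map_mul, map_pow, hom_hh3, hom_hh4, em_gg4, em_qn3, em_qn4]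
  ring

lemma I7 : X 1 ^ 2 * hh 4 + e2 bb = gg 6 + h2 (hh 3) + ee 2 * hh 4 := by
  apply em_inj
  simp only [map_add, map_mul, map_pow, em_e2_hom, em_h2_hom, hom_hh3, hom_hh4, hom_ee2, hom_bb,
    em_gg6, em_qn5, em_qn6, hom_pl_X]
  norm_num
  ring

lemma I8 : ee 3 * X 1 ^ 3 + gg 4 * X 1 ^ 2
    = bb ^ 2 + ee 3 * bb + X 1 ^ 2 * ee 4 + X 1 * ee 2 * hh 3 := by
  apply em_inj
  simp only [map_add, map_mul, map_pow, hom_hh3, hom_ee2, hom_ee3, hom_ee4, hom_bb,
    em_gg4, em_qn3, em_qn4]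
  ring

lemma I9 : 3 * (X 1 * (ee 3 * X 1 ^ 3 + gg 4 * X 1 ^ 2))
    = 4 * (X 1 * bb ^ 2) + (2 * (hh 3 * e2 (ee 2)) + ee 2 ^ 2 * hh 3 + 2 * (X 1 * hh 2 * ee 4)
      + 2 * (bb * hh 4) + X 1 * hh 3 * bb + hh 2 ^ 2 * ee 3 + X 1 * ee 3 * bb
      + 3 * (X 1 ^ 3 * ee 4)) := by
  apply em_inj
  simp only [map_add, map_mul, map_pow, map_ofNat, em_e2_hom, hom_hh2, hom_hh3, hom_hh4, hom_ee2,
    hom_ee3, hom_ee4, hom_bb, em_gg4, em_qn3, em_qn4, hom_pl_X]
  norm_num
  ring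

end Pool.Agent.H23.TC
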