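import Mathlib
import Pool.Agent.H23.TC.Low

/-!
# The positivity for the three-cycle
-/

set_option autoImplicit false
set_option linter.unusedSectionVars false
set_option linter.unusedVariables false
set_option linter.unusedSimpArgs false
set_option linter.style.haveILetI false

namespace Pool.Agent.H23.TC

open PowerSeries Pool.Agent.K4H7.SN

/-- homogeneous series -/
noncomputable def mo (n : ℕ) (f : Lam) : Ser := C f * X ^ n

lemma mo_eq (n : ℕ) (f : Lam) : mo n f = monomial n f := by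
  ext1 m
  rw [mo, coeff_monomial, coeff_C_mul, coeff_X_pow]
  split_ifs <;> simp

lemma RC_mo {n : ℕ} {f : Lam} (h : f ∈ PP n) : RC (mo n f) := by
  rw [mo_eq]
  exact RC_monomial (RP_of h)

lemma coeff_mo (n m : ℕ) (f : Lam) : coeff m (mo n f) = if m = n then f else 0 := by
  rw [mo_eq, coeff_monomial]

/-! ### The geometric series -/

/-- the series of the powers of `X 1` -/
noncomputable def Tt : Ser := mk fun n => (MvPolynomial.X 1 : Lam) ^ n

lemma Tt_eq : (1 - aa) * Tt = 1 := by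
  ext1 m
  rw [Tt, sub_mul, one_mul, map_sub, aa, coeff_monomial_mul', coeff_mk, coeff_mk, coeff_one]
  rcases m with _ | m
  · simp
  · rw [if_pos (by omega), if_neg (by omega), Nat.add_sub_cancel, pow_succ']
    ring

lemma X1_mem : (MvPolynomial.X 1 : Lam) ∈ PP 1 := by
  have h1 := hh_mem 1
  have h2 := hh_rec 1
  simp [hh_zero] at h2
  rwa [h2] at h1

lemma aa_mo : aa = mo 1 (MvPolynomial.X 1) := by rw [aa, mo_eq]

lemma RC_aa : RC aa := by rw [aa_mo]; exact RC_mo X1_mem

lemma CC_aa : CC aa := CC_monomial X1_mem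

lemma RC_Tt : RC Tt := RC_geo RC_aa RC_one constantCoeff_aa (by linear_combination Tt_eq)

/-! ### The even part -/

lemma CC_Qs : CC Qs := by
  intro m
  rw [Qs, coeff_mk]
  obtain ⟨r, hr, e⟩ := qn_sub m
  rw [e]
  exact AddSubmonoid.add_mem _ (hh_mem m) hr

/-- the generators of the even part -/
noncomputable def Gs : Ser := 1 - (1 - aa) * Qs

lemma coeff_zero_Qs : coeff 0 Qs = 1 := by rw [Qs, coeff_mk, qn]

lemma Gs_const : constantCoeff Gs = 0 := by
  have hQ0 := coeff_zero_Qs
  rw [coeff_zero_eq_constantCoeff_apply] at hQ0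
  rw [Gs, map_sub, map_mul, map_sub, map_one, constantCoeff_aa, hQ0]
  ring

lemma CC_Gs : CC Gs := by
  refine CC_G constantCoeff_aa CC_aa Gs_const ?_
  unfold EqG
  have h1 := Qs_eq
  have h2 : Phi Gs = 1 - (1 - Phi aa) * Phi Qs := by
    rw [Gs, map_sub, map_one, Phi_mul, map_sub, map_one]
  rw [h2, Gs]
  linear_combination (1 - aa) * (1 - Phi aa) * h1

lemma coeff_Gs (n : ℕ) (hn : n ≠ 0) : coeff n Gs = gg n := by
  rw [Gs, sub_mul, one_mul, map_sub, map_sub, coeff_one, if_neg hn, aa, coeff_monomial_mul',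
    if_pos (by omega), Qs, coeff_mk, coeff_mk, gg]
  ring

lemma gg_mem (n : ℕ) (hn : n ≠ 0) : gg n ∈ PP n := by
  rw [← coeff_Gs n hn]
  exact CC_Gs n

/-- the generators of degree at least seven -/
noncomputable def gr : Ser := mk fun n => if 7 ≤ n then gg n else 0

lemma RC_gr : RC gr := by
  intro n
  rw [gr, coeff_mk]
  split_ifs with h
  · exact RP_of (gg_mem n (by omega))
  · exact AddSubmonoid.zero_mem _

lemma Gs_split : Gs = mo 2 (ee 2) + mo 4 (gg 4) + mo 6 (gg 6) + gr := by
  ext1 n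
  rw [map_add, map_add, map_add, coeff_mo, coeff_mo, coeff_mo, gr, coeff_mk]
  rcases Nat.lt_or_ge n 7 with h | h
  · rw [if_neg (show ¬ 7 ≤ n by omega)]
    rcases Nat.eq_zero_or_pos n with rfl | hn
    · rw [coeff_zero_eq_constantCoeff_apply, Gs_const]
      simp
    · rw [coeff_Gs n hn.ne']
      interval_cases n
      · simp [gg1]
      · simp [gg2]
      · simp [gg3]
      · simp
      · simp [gg5]
      · simp
  · rw [if_pos h, if_neg (show n ≠ 2 by omega), if_neg (show n ≠ 4 by omega),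
      if_neg (show n ≠ 6 by omega), coeff_Gs n (by omega)]
    simp

/-! ### The exterior algebra of the character of degree three -/

/-- the elementary symmetric functions of the character `bb` -/
noncomputable def eb (m : ℕ) : Lam := MvPolynomial.aeval (fun n => pl n bb) (ee m)

lemma bb_pleth {m : ℕ} {f : Lam} (hf : f ∈ PP m) :
    MvPolynomial.aeval (fun n => pl n bb) f ∈ PP (m * 3) := by
  haveI : NeZero 3 := ⟨by norm_num⟩
  letI : DecidableEq (rootsOfUnity 3 ℂ) := Classical.decEq _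
  letI : Fintype (rootsOfUnity 3 ℂ) := Fintype.ofFinite _
  have hcard : Fintype.card (rootsOfUnity 3 ℂ) = 3 := by
    rw [← Nat.card_eq_fintype_card, Complex.card_rootsOfUnity]
  have h := PP_pleth (MulAction.toPermHom (rootsOfUnity 3 ℂ) (rootsOfUnity 3 ℂ))
    (rootsOfUnity 3 ℂ).subtype hf
  rw [hcard] at h
  rw [bb, LL, dif_neg (by norm_num)]
  exact h

lemma eb_mem (m : ℕ) : eb m ∈ PP (m * 3) := bb_pleth (ee_mem m)

lemma ee_one : ee 1 = MvPolynomial.X 1 := by
  have h2 := hh_rec 1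
  simp [hh_zero] at h2
  rw [ee, h2, om_X]
  norm_num

lemma eb_one : eb 1 = bb := by
  rw [eb, ee_one, MvPolynomial.aeval_X, pl_one]

lemma two_ee2 : 2 * ee 2 = MvPolynomial.X 1 ^ 2 - MvPolynomial.X 2 := by
  apply em_inj
  rw [map_mul, map_ofNat, hom_ee2, map_sub, map_pow]
  ring

lemma two_ne' : (2 : Lam) ≠ 0 := two_ne_zero

lemma eb_two : eb 2 = e2 bb := by
  have h := congrArg (MvPolynomial.aeval (fun n => pl n bb) : Lam →ₐ[ℂ] Lam) two_ee2
  rw [map_mul, map_ofNat, map_sub, map_pow, MvPolynomial.aeval_X, MvPolynomial.aeval_X, pl_one] at h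
  apply mul_left_cancel₀ two_ne'
  rw [two_e2, eb, h]
  ring

lemma bb_mem : bb ∈ PP 3 := by
  have := eb_mem 1
  rwa [eb_one, one_mul] at this

/-- the elementary symmetric functions are small -/
lemma ee_le (m : ℕ) (hm : 2 ≤ m) : ∃ r ∈ PP m,
    ee 2 * (MvPolynomial.X 1 : Lam) ^ (m - 2) = ee m + r := by
  obtain ⟨r, hr, h⟩ := fin_pos m 1 (by omega)
  refine ⟨om r, PP_om hr, ?_⟩
  have h1 := congrArg om h
  rw [map_add, map_smul, map_add, map_mul, map_pow, map_pow, map_pow, om_X, om_X, pow_one,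
    mul_one] at h1
  have hee : ee m = om (hh m) := rfl
  rw [hee, ← h1]
  apply mul_left_cancel₀ two_ne'
  rw [mul_smul_comm, two_mul (_ + _), smul_add, half_add']
  have h2 := two_ee2
  have h3 : (MvPolynomial.X 1 : Lam) ^ m = MvPolynomial.X 1 ^ 2 * MvPolynomial.X 1 ^ (m - 2) := by
    rw [← pow_add]
    congr 1
    omega
  norm_num
  rw [h3]
  linear_combination (MvPolynomial.X 1 : Lam) ^ (m - 2) * h2

/-- and so are those of `bb` -/
lemma eb_le (m : ℕ) (hm : 2 ≤ m) : ∃ r ∈ PP (m * 3), e2 bb * bb ^ (m - 2) = eb m + r := by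
  obtain ⟨r, hr, h⟩ := ee_le m hm
  refine ⟨MvPolynomial.aeval (fun n => pl n bb) r, bb_pleth hr, ?_⟩
  have h1 := congrArg (MvPolynomial.aeval (fun n => pl n bb) : Lam →ₐ[ℂ] Lam) h
  rw [map_mul, map_pow, map_add, MvPolynomial.aeval_X, pl_one] at h1
  rw [← eb_two]
  exact h1

/-- the alternating sum of the exterior powers -/
noncomputable def La : Ser := Ee (fun n => - pl n bb) 3

lemma coeff_La (n : ℕ) : coeff n La = if 3 ∣ n then (-1 : Lam) ^ (n / 3) * eb (n / 3) else 0 := by
  rw [La, Ee, coeff_mk]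
  split_ifs with h
  · rw [neg_ee (fun n => pl n bb), eb]
  · rfl

/-- the even exterior powers, from the fourth on -/
noncomputable def Ev : Ser := mk fun n => if 6 ∣ n ∧ 12 ≤ n then eb (n / 3) else 0

/-- the odd exterior powers, from the third on -/
noncomputable def Od : Ser := mk fun n => if n % 6 = 3 ∧ 9 ≤ n then eb (n / 3) else 0

lemma RC_Ev : RC Ev := by
  intro n
  rw [Ev, coeff_mk]
  split_ifs with h
  · have := eb_mem (n / 3)
    rw [Nat.div_mul_cancel (dvd_trans (by norm_num) h.1)] at this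
    exact RP_of this
  · exact AddSubmonoid.zero_mem _

lemma RC_Od : RC Od := by
  intro n
  rw [Od, coeff_mk]
  split_ifs with h
  · have := eb_mem (n / 3)
    rw [Nat.div_mul_cancel (by omega)] at this
    exact RP_of this
  · exact AddSubmonoid.zero_mem _

lemma ee_zero : ee 0 = 1 := by rw [ee, hh_zero, map_one]

lemma eb_zero : eb 0 = 1 := by rw [eb, ee_zero, map_one]

lemma La_split : La = 1 - mo 3 bb + mo 6 (e2 bb) + Ev - Od := by
  ext1 n
  rw [coeff_La, map_sub, map_add, map_add, map_sub, coeff_one, coeff_mo, coeff_mo, Ev, Od,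
    coeff_mk, coeff_mk]
  by_cases h3 : 3 ∣ n
  · rw [if_pos h3]
    obtain ⟨m, rfl⟩ := h3
    rw [Nat.mul_div_cancel_left m (by norm_num)]
    rcases Nat.even_or_odd m with hm | hm
    · rw [hm.neg_one_pow, one_mul, if_neg (show 3 * m ≠ 3 by obtain ⟨k, rfl⟩ := hm; omega),
        if_neg (show ¬ (3 * m % 6 = 3 ∧ 9 ≤ 3 * m) by obtain ⟨k, rfl⟩ := hm; omega)]
      by_cases h0 : m = 0
      · subst h0
        simp [eb_zero]
      · by_cases h2 : m = 2
        · subst h2
          simp [eb_two]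
        · rw [if_neg (show 3 * m ≠ 0 by omega), if_neg (show 3 * m ≠ 6 by omega),
            if_pos (show 6 ∣ 3 * m ∧ 12 ≤ 3 * m by obtain ⟨k, rfl⟩ := hm; omega)]
          ring
    · rw [hm.neg_one_pow, if_neg (show 3 * m ≠ 0 by obtain ⟨k, rfl⟩ := hm; omega),
        if_neg (show 3 * m ≠ 6 by obtain ⟨k, rfl⟩ := hm; omega),
        if_neg (show ¬ (6 ∣ 3 * m ∧ 12 ≤ 3 * m) by obtain ⟨k, rfl⟩ := hm; omega)]
      by_cases h1 : m = 1
      · subst h1
        simp [eb_one]
      · rw [if_neg (show 3 * m ≠ 3 by omega),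
          if_pos (show 3 * m % 6 = 3 ∧ 9 ≤ 3 * m by obtain ⟨k, rfl⟩ := hm; omega)]
        ring
  · rw [if_neg h3, if_neg (by rintro rfl; simp at h3), if_neg (by rintro rfl; simp at h3),
      if_neg (by rintro rfl; norm_num at h3), if_neg (by omega), if_neg (by omega)]
    ring

/-- `Sym` times the alternating sum of the exterior powers -/
lemma El_La : El 3 * La = 1 := by
  have h1 : DD (El 3) = El 3 * Be (fun n => pl n bb) 3 := DD_Ee _ 3 (by norm_num)
  have h2 : DD La = La * Be (fun n => - pl n bb) 3 := DD_Ee _ 3 (by norm_num)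
  have h3 : Be (fun n => - pl n bb) 3 = - Be (fun n => pl n bb) 3 := by
    ext1 n
    rw [map_neg, Be, Be, coeff_mk, coeff_mk]
    split_ifs
    · ring
    · rw [neg_zero]
  have h0 : coeff 0 (El 3) = 1 := by
    rw [El, Ee, coeff_mk, if_pos (dvd_zero 3), Nat.zero_div, hw_zero]
  have h0' : coeff 0 La = 1 := by
    rw [La, Ee, coeff_mk, if_pos (dvd_zero 3), Nat.zero_div, hw_zero]
  apply eq_of_DD
  · rw [DD_mul, DD_one, h1, h2, h3]
    ring
  · rw [coeff_zero_eq_constantCoeff_apply] at h0 h0' ⊢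
    rw [map_mul, h0, h0', one_mul]
  · rw [coeff_one, if_pos rfl]

/-- the odd part without the summand of degree three -/
lemma Qs_La (n : ℕ) : ∃ r ∈ PP n, coeff n (Qs * La) = hh n + r := by
  have h1 : 1 ∈ od (n + 3) := by
    rw [od, Finset.mem_filter, Finset.mem_range]
    exact ⟨by omega, by norm_num⟩
  have h3 : 3 ∈ (od (n + 3)).erase 1 := by
    rw [Finset.mem_erase, od, Finset.mem_filter, Finset.mem_range]
    exact ⟨by norm_num, by omega, by norm_num⟩
  have h2 : coeff n (Qs * La) = coeff n ((∏ j ∈ od (n + 3), El j) * La) := by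
    rw [coeff_mul, coeff_mul]
    refine Finset.sum_congr rfl ?_
    rintro ⟨i, j⟩ hp
    have hp' := Finset.HasAntidiagonal.mem_antidiagonal.mp hp
    simp only at hp' ⊢
    rw [coeff_prod (n + 3) i (by omega), Qs, coeff_mk]
  rw [h2, ← Finset.mul_prod_erase _ _ h1, ← Finset.mul_prod_erase _ _ h3]
  obtain ⟨W, hW, e⟩ : OC (∏ j ∈ ((od (n + 3)).erase 1).erase 3, El j) := by
    refine Finset.prod_induction _ OC (fun _ _ => OC_mul) OC_one ?_
    intro j hj
    rw [od, Finset.mem_erase, Finset.mem_erase, Finset.mem_filter] at hj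
    exact OC_El j (Nat.pos_of_ne_zero (by rintro rfl; simp at hj))
  refine ⟨coeff n (El 1 * W), CC_mul (CC_El 1 one_pos) hW n, ?_⟩
  have h4 : El 1 * (El 3 * ∏ j ∈ ((od (n + 3)).erase 1).erase 3, El j) * La
      = El 1 + El 1 * W := by
    rw [e]
    linear_combination (El 1 * (1 + W)) * El_La
  rw [h4, map_add, coeff_El_one]

end Pool.Agent.H23.TC
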