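import Mathlib
import Pool.Agent.H23.TC.Main

/-!
# The combination of the identities
-/

set_option autoImplicit false
set_option linter.unusedSectionVars false
set_option linter.unusedVariables false
set_option linter.unusedSimpArgs false
set_option linter.style.haveILetI false

namespace Pool.Agent.H23.TC

open PowerSeries Pool.Agent.K4H7.SN

lemma RC_nat_mul {k : ℕ} {W : Ser} (h : RC W) : RC ((k : Ser) * W) := by
  intro n
  rw [← nsmul_eq_mul, map_nsmul]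
  exact AddSubmonoid.nsmul_mem _ (h n) k

lemma RC_of_nat_mul {k : ℕ} (hk : 0 < k) {W : Ser} (h : RC ((k : Ser) * W)) : RC W := by
  have hk0 : (0 : ℝ) < k := by exact_mod_cast hk
  have h1 := RC_smul h (c := (k : ℝ)⁻¹) (by positivity)
  have h2 : (((k : ℝ)⁻¹ : ℝ) : ℂ) • ((k : Ser) * W) = W := by
    rw [← nsmul_eq_mul, ← Nat.cast_smul_eq_nsmul ℂ, smul_smul]
    have : (((k : ℝ)⁻¹ : ℝ) : ℂ) * (k : ℂ) = 1 := by
      rw [Complex.ofReal_inv, Complex.ofReal_natCast]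
      exact inv_mul_cancel₀ (by exact_mod_cast hk.ne')
    rw [this, one_smul]
  rwa [h2] at h1

lemma RC_pow {W : Ser} (h : RC W) (k : ℕ) : RC (W ^ k) := by
  induction k with
  | zero => rw [pow_zero]; exact RC_one
  | succ k ih => rw [pow_succ]; exact RC_mul ih h

lemma RC_two {W : Ser} (h : RC W) : RC (2 * W) := by
  have := RC_nat_mul (k := 2) h
  simpa using this

lemma RC_three {W : Ser} (h : RC W) : RC (3 * W) := by
  have := RC_nat_mul (k := 3) h
  simpa using this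

lemma RC_four {W : Ser} (h : RC W) : RC (4 * W) := by
  have := RC_nat_mul (k := 4) h
  simpa using this

/-- the geometric series of the squares of `bb` -/
noncomputable def Zs : Ser := mk fun n => if 6 ∣ n ∧ 6 ≤ n then bb ^ (n / 3) else 0

lemma Zs_eq : (1 - mo 3 bb ^ 2) * Zs = mo 3 bb ^ 2 := by
  have h2 : mo 3 bb ^ 2 = monomial 6 (bb ^ 2) := by
    rw [mo_eq, pow_two, monomial_mul_monomial, pow_two]
  rw [h2]
  ext1 n
  rw [sub_mul, one_mul, map_sub, coeff_monomial_mul', coeff_monomial, Zs, coeff_mk, coeff_mk]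
  rcases Nat.lt_or_ge n 6 with h | h
  · rw [if_neg (by omega), if_neg (show ¬ 6 ≤ n by omega), if_neg (show n ≠ 6 by omega), sub_zero]
  · rw [if_pos h]
    by_cases h6 : 6 ∣ n
    · obtain ⟨m, rfl⟩ := h6
      obtain ⟨k, rfl⟩ : ∃ k, m = k + 1 := ⟨m - 1, by omega⟩
      rw [if_pos (by omega)]
      rcases Nat.eq_zero_or_pos k with rfl | hk
      · simp
      · rw [if_pos (by omega), if_neg (by omega),
          show 6 * (k + 1) - 6 = 3 * (2 * k) by omega, show 6 * (k + 1) = 3 * (2 * k + 2) by omega,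
          Nat.mul_div_cancel_left _ (by norm_num), Nat.mul_div_cancel_left _ (by norm_num)]
        ring
    · rw [if_neg (by omega), if_neg (by omega), if_neg (by omega)]
      ring

/-- comparison of the even exterior powers with the geometric series -/
lemma RC_Zs : RC (mo 6 (e2 bb) * Zs - Ev) := by
  intro n
  rw [map_sub, mo_eq, coeff_monomial_mul', Zs, coeff_mk, Ev, coeff_mk]
  by_cases h : 6 ∣ n ∧ 12 ≤ n
  · rw [if_pos (by omega), if_pos (by omega), if_pos h]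
    obtain ⟨⟨m, rfl⟩, h12⟩ := h
    obtain ⟨k, rfl⟩ : ∃ k, m = k + 2 := ⟨m - 2, by omega⟩
    rw [show 6 * (k + 2) - 6 = 3 * (2 * k + 2) by omega, show 6 * (k + 2) = 3 * (2 * k + 4) by omega,
      Nat.mul_div_cancel_left _ (by norm_num), Nat.mul_div_cancel_left _ (by norm_num)]
    obtain ⟨r, hr, e⟩ := eb_le (2 * k + 4) (by omega)
    rw [show 2 * k + 4 - 2 = 2 * k + 2 by omega] at e
    rw [e, add_sub_cancel_left, mul_comm 3]
    exact RP_of hr
  · rw [if_neg h, sub_zero]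
    by_cases h6 : 6 ≤ n
    · rw [if_pos h6, if_neg (by omega), mul_zero]
      exact AddSubmonoid.zero_mem _
    · rw [if_neg h6]
      exact AddSubmonoid.zero_mem _

/-- the series of the character -/
noncomputable def Fs : Ser := Tt * (1 - 2 * mo 3 bb)

lemma mem_Hh : h2 (hh 3) ∈ PP 6 := by
  have h : h2 (hh 3) ∈ PP (3 + 3) := PP_h2 (hh_mem 3)
  exact h

lemma mem_E : e2 bb ∈ PP 6 := by
  have h : e2 bb ∈ PP (3 + 3) := PP_e2 bb_mem
  exact h

lemma mem_En : e2 (ee 3) ∈ PP 6 := by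
  have h : e2 (ee 3) ∈ PP (3 + 3) := PP_e2 (ee_mem 3)
  exact h

lemma mem_Z2 : e2 (ee 2) ∈ PP 4 := by
  have h : e2 (ee 2) ∈ PP (2 + 2) := PP_e2 (ee_mem 2)
  exact h

/-- **The positivity.** -/
theorem RC_main : RC (Fs - Qs * La) := by
  -- the elements
  set P : Ser := aa with hP
  have hPm : P = mo 1 (MvPolynomial.X 1) := aa_mo
  obtain ⟨A, hA⟩ : ∃ A, A = mo 2 (ee 2) := ⟨_, rfl⟩
  obtain ⟨B, hB⟩ : ∃ B, B = mo 3 bb := ⟨_, rfl⟩
  obtain ⟨N, hN⟩ : ∃ N, N = mo 3 (ee 3) := ⟨_, rfl⟩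
  obtain ⟨x2, hx2⟩ : ∃ x, x = mo 2 (hh 2) := ⟨_, rfl⟩
  obtain ⟨x3, hx3⟩ : ∃ x, x = mo 3 (hh 3) := ⟨_, rfl⟩
  obtain ⟨x4, hx4⟩ : ∃ x, x = mo 4 (hh 4) := ⟨_, rfl⟩
  obtain ⟨y4, hy4⟩ : ∃ x, x = mo 4 (ee 4) := ⟨_, rfl⟩
  obtain ⟨g4, hg4⟩ : ∃ x, x = mo 4 (gg 4) := ⟨_, rfl⟩
  obtain ⟨g6, hg6⟩ : ∃ x, x = mo 6 (gg 6) := ⟨_, rfl⟩
  obtain ⟨E, hE⟩ : ∃ x, x = mo 6 (e2 bb) := ⟨_, rfl⟩
  obtain ⟨En, hEn⟩ : ∃ x, x = mo 6 (e2 (ee 3)) := ⟨_, rfl⟩
  obtain ⟨Hh, hHh⟩ : ∃ x, x = mo 6 (h2 (hh 3)) := ⟨_, rfl⟩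
  obtain ⟨Z2, hZ2⟩ : ∃ x, x = mo 4 (e2 (ee 2)) := ⟨_, rfl⟩
  -- membership
  have mP : RC P := RC_aa
  have mA : RC A := by rw [hA]; exact RC_mo (ee_mem 2)
  have mB : RC B := by rw [hB]; exact RC_mo bb_mem
  have mN : RC N := by rw [hN]; exact RC_mo (ee_mem 3)
  have mx2 : RC x2 := by rw [hx2]; exact RC_mo (hh_mem 2)
  have mx3 : RC x3 := by rw [hx3]; exact RC_mo (hh_mem 3)
  have mx4 : RC x4 := by rw [hx4]; exact RC_mo (hh_mem 4)
  have my4 : RC y4 := by rw [hy4]; exact RC_mo (ee_mem 4)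
  have mg4 : RC g4 := by rw [hg4]; exact RC_mo (gg_mem 4 (by norm_num))
  have mg6 : RC g6 := by rw [hg6]; exact RC_mo (gg_mem 6 (by norm_num))
  have mE : RC E := by rw [hE]; exact RC_mo mem_E
  have mEn : RC En := by rw [hEn]; exact RC_mo mem_En
  have mHh : RC Hh := by rw [hHh]; exact RC_mo mem_Hh
  have mZ2 : RC Z2 := by rw [hZ2]; exact RC_mo mem_Z2
  have mT : RC Tt := RC_Tt
  have mG : RC Gs := RC_of CC_Gs
  have mQ : RC Qs := RC_of CC_Qs
  -- identities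
  have s1 : P * A = B + N := by
    have := congrArg (C : Lam →+* Ser) I1
    simp only [map_mul, map_add, map_pow, map_ofNat] at this
    rw [hPm, hA, hB, hN]; unfold mo
    linear_combination X ^ 3 * this
  have s2 : P ^ 3 = x3 + N + 2 * B := by
    have := congrArg (C : Lam →+* Ser) I2
    simp only [map_mul, map_add, map_pow, map_ofNat] at this
    rw [hPm, hx3, hB, hN]; unfold mo
    linear_combination X ^ 3 * this
  have s3 : P * N + g4 = A * x2 + y4 := by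
    have := congrArg (C : Lam →+* Ser) I3
    simp only [map_mul, map_add, map_pow, map_ofNat] at this
    rw [hPm, hA, hN, hg4, hx2, hy4]; unfold mo
    linear_combination X ^ 4 * this
  have s4 : P ^ 2 * N + P * g4 = A * B + A * x3 + P * y4 := by
    have := congrArg (C : Lam →+* Ser) I4
    simp only [map_mul, map_add, map_pow, map_ofNat] at this
    rw [hPm, hA, hB, hN, hg4, hx3, hy4]; unfold mo
    linear_combination X ^ 5 * this
  have s5 : P * A * x3 + P ^ 2 * y4 + g6 = E + A * x4 + 2 * x2 * y4 + x3 * B + En := by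
    have := congrArg (C : Lam →+* Ser) I5
    simp only [map_mul, map_add, map_pow, map_ofNat] at this
    rw [hPm, hA, hB, hg6, hx2, hx3, hx4, hy4, hE, hEn]; unfold mo
    linear_combination X ^ 6 * this
  have s6 : P * x3 = x4 + g4 := by
    have := congrArg (C : Lam →+* Ser) I6
    simp only [map_mul, map_add, map_pow, map_ofNat] at this
    rw [hPm, hg4, hx3, hx4]; unfold mo
    linear_combination X ^ 4 * this
  have s7 : P ^ 2 * x4 + E = g6 + Hh + A * x4 := by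
    have := congrArg (C : Lam →+* Ser) I7
    simp only [map_mul, map_add, map_pow, map_ofNat] at this
    rw [hPm, hA, hg6, hx4, hE, hHh]; unfold mo
    linear_combination X ^ 6 * this
  have s8 : N * P ^ 3 + g4 * P ^ 2 = B ^ 2 + N * B + P ^ 2 * y4 + P * A * x3 := by
    have := congrArg (C : Lam →+* Ser) I8
    simp only [map_mul, map_add, map_pow, map_ofNat] at this
    rw [hPm, hA, hB, hN, hg4, hx3, hy4]; unfold mo
    linear_combination X ^ 6 * this
  have s9 : 3 * (P * (N * P ^ 3 + g4 * P ^ 2)) = 4 * (P * B ^ 2)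
      + (2 * (x3 * Z2) + A ^ 2 * x3 + 2 * (P * x2 * y4) + 2 * (B * x4) + P * x3 * B
        + x2 ^ 2 * N + P * N * B + 3 * (P ^ 3 * y4)) := by
    have := congrArg (C : Lam →+* Ser) I9
    simp only [map_mul, map_add, map_pow, map_ofNat] at this
    rw [hPm, hA, hB, hN, hg4, hx2, hx3, hx4, hy4, hZ2]; unfold mo
    linear_combination X ^ 7 * this
  have hT : Tt = 1 + P * Tt := by linear_combination Tt_eq
  have hGs : Gs = A + g4 + g6 + gr := by rw [hA, hg4, hg6]; exact Gs_split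
  have hQ : Qs = Tt * (1 - Gs) := by
    have h1 : Gs = 1 - (1 - P) * Qs := rfl
    linear_combination (-Qs) * Tt_eq + Tt * h1
  have hLa : La = 1 - B + E + Ev - Od := by rw [hB, hE]; exact La_split
  have hF : Fs = Tt * (1 - 2 * B) := by rw [hB]; rfl
  have hZ : (1 - B ^ 2) * Zs = B ^ 2 := by rw [hB]; exact Zs_eq
  have mEZ : RC (E * Zs - Ev) := by rw [hE]; exact RC_Zs
  -- `T (1 - B)`
  have mTB : RC (Tt * (1 - B)) := by
    have : Tt * (1 - B) = 1 + P + P ^ 2 + (x3 + N + B) * Tt := by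
      linear_combination (1 + P + P ^ 2) * hT + Tt * s2
    rw [this]
    exact RC_add (RC_add (RC_add RC_one mP) (RC_pow mP 2)) (RC_mul (RC_add (RC_add mx3 mN) mB) mT)
  -- the decomposition
  obtain ⟨W, hW⟩ : ∃ W, W = A * x4 + 2 * x2 * y4 + x3 * B + En := ⟨_, rfl⟩
  have d1 : Fs - Qs * (1 - B) = A + Tt * (N - A * B) + Tt * (1 - B) * (g4 + g6 + gr) := by
    rw [hF, hQ, hGs]
    linear_combination A * hT + Tt * s1
  have d2 : Tt * (N - A * B) + Tt * g4 = N + A * x2 + y4 + Tt * (A * x3 + P * y4) := by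
    linear_combination (N * (1 + P) + g4) * hT + s3 + Tt * s4
  have d3 : Tt * (A * x3 + P * y4) + Tt * (g6 - E) - Tt * B * g4
      = (A * x3 + P * y4) + W + P * Tt * (A * x4 + 2 * x2 * y4 + En) + Tt * B * x4 := by
    rw [hW]
    linear_combination (A * x3 + P * y4 + (A * x4 + 2 * x2 * y4 + x3 * B + En)) * hT + Tt * s5
      + Tt * B * s6
  have d4 : P * Tt * (A * x4) = (P + P ^ 2) * (A * x4) + (B + N) * P ^ 2 * x4 * Tt := by
    linear_combination (P * A * x4 + P ^ 2 * A * x4) * hT + P ^ 2 * x4 * Tt * s1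
  have d5 : - (Tt * B * g6) = - (Tt * B * E) - Tt * B * P ^ 2 * x4 + Tt * B * (Hh + A * x4) := by
    linear_combination Tt * B * s7
  have d6 : Tt * (1 - B) * E - Qs * E = A * E + Tt * N * E + Tt * (g4 + g6 + gr) * E := by
    rw [hQ, hGs]
    linear_combination A * E * hT + Tt * E * s1
  obtain ⟨L1, hL1⟩ : ∃ L, L = A + (N + A * x2 + y4) + (A * x3 + P * y4) + W
      + (P + P ^ 2) * (A * x4) + A * E
      + Tt * (N * P ^ 2 * x4 + 2 * (P * x2 * y4) + P * En + B * x4 + B * (Hh + A * x4))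
      + Tt * (1 - B) * gr + Tt * (g6 + gr) * E + Qs * Od := ⟨_, rfl⟩
  obtain ⟨L2, hL2⟩ : ∃ L, L = Tt * (N + g4) * E - Qs * Ev := ⟨_, rfl⟩
  have d7 : Fs - Qs * La = L1 + L2 := by
    rw [hLa, hL1, hL2]
    linear_combination d1 + d2 + d3 + d4 + d5 + d6
  have mW : RC W := by
    rw [hW]
    exact RC_add (RC_add (RC_add (RC_mul mA mx4) (RC_mul (RC_two mx2) my4)) (RC_mul mx3 mB)) mEn
  have mL1 : RC L1 := by
    rw [hL1]
    have m1 : RC (N + A * x2 + y4) := RC_add (RC_add mN (RC_mul mA mx2)) my4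
    have m2 : RC (A * x3 + P * y4) := RC_add (RC_mul mA mx3) (RC_mul mP my4)
    have m3 : RC ((P + P ^ 2) * (A * x4)) :=
      RC_mul (RC_add mP (RC_pow mP 2)) (RC_mul mA mx4)
    have m4 : RC (N * P ^ 2 * x4 + 2 * (P * x2 * y4) + P * En + B * x4 + B * (Hh + A * x4)) :=
      RC_add (RC_add (RC_add (RC_add (RC_mul (RC_mul mN (RC_pow mP 2)) mx4)
        (RC_two (RC_mul (RC_mul mP mx2) my4))) (RC_mul mP mEn)) (RC_mul mB mx4))
        (RC_mul mB (RC_add mHh (RC_mul mA mx4)))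
    exact RC_add (RC_add (RC_add (RC_add (RC_add (RC_add (RC_add (RC_add (RC_add mA m1) m2) mW) m3)
      (RC_mul mA mE)) (RC_mul mT m4)) (RC_mul mTB RC_gr))
      (RC_mul (RC_mul mT (RC_add mg6 RC_gr)) mE)) (RC_mul mQ RC_Od)
  -- the tail
  obtain ⟨U, hU⟩ : ∃ U, U = P * Tt - B ^ 2 * (3 + 4 * (P * Tt)) := ⟨_, rfl⟩
  obtain ⟨Y, hY⟩ : ∃ Y, Y = 3 * B ^ 2 + 4 * (Tt * P * B ^ 2) - 3 * (Tt * Zs) := ⟨_, rfl⟩
  have mU : RC U := by
    apply RC_of_nat_mul (k := 4) (by norm_num)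
    have h1 : ((4 : ℕ) : Ser) * U = 4 * (P + P ^ 2 + P ^ 3 + P ^ 4 + P ^ 5) + P ^ 6
        + (x3 + N) * (P ^ 3 + 2 * B) * (3 + 4 * (P * Tt)) := by
      rw [hU]
      push_cast
      have h4 : 4 * B ^ 2 = P ^ 6 - (x3 + N) * (P ^ 3 + 2 * B) := by
        linear_combination -(P ^ 3 + 2 * B) * s2
      have h5 : P * Tt = P + P ^ 2 + P ^ 3 + P ^ 4 + P ^ 5 + P ^ 6 + P ^ 7 * Tt := by
        linear_combination (P + P ^ 2 + P ^ 3 + P ^ 4 + P ^ 5 + P ^ 6) * hT
      linear_combination -(3 + 4 * (P * Tt)) * h4 + 4 * h5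
    rw [h1]
    have m1 : RC (P + P ^ 2 + P ^ 3 + P ^ 4 + P ^ 5) :=
      RC_add (RC_add (RC_add (RC_add mP (RC_pow mP 2)) (RC_pow mP 3)) (RC_pow mP 4)) (RC_pow mP 5)
    have m2 : RC ((3 : Ser) + 4 * (P * Tt)) := by
      refine RC_add ?_ (RC_four (RC_mul mP mT))
      have := RC_three RC_one
      rwa [mul_one] at this
    exact RC_add (RC_add (RC_four m1) (RC_pow mP 6))
      (RC_mul (RC_mul (RC_add mx3 mN) (RC_add (RC_pow mP 3) (RC_two mB))) m2)
  have hB0 : constantCoeff (B ^ 2) = 0 := by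
    rw [hB, mo_eq, ← coeff_zero_eq_constantCoeff_apply, pow_two, monomial_mul_monomial,
      coeff_monomial, if_neg (by norm_num)]
  have mY : RC Y := by
    refine RC_geo (RC_pow mB 2) (RC_mul (RC_pow mB 2) mU) hB0 ?_
    rw [hY, hU]
    linear_combination (-3 * Tt) * hZ + (-3 * B ^ 2) * hT
  have mL2 : RC L2 := by
    apply RC_of_nat_mul (k := 3) (by norm_num)
    obtain ⟨R8, hR8⟩ : ∃ R, R = N * B + P ^ 2 * y4 + P * A * x3 := ⟨_, rfl⟩
    obtain ⟨R9, hR9⟩ : ∃ R, R = 2 * (x3 * Z2) + A ^ 2 * x3 + 2 * (P * x2 * y4) + 2 * (B * x4)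
      + P * x3 * B + x2 ^ 2 * N + P * N * B + 3 * (P ^ 3 * y4) := ⟨_, rfl⟩
    have mR8 : RC R8 := by
      rw [hR8]
      exact RC_add (RC_add (RC_mul mN mB) (RC_mul (RC_pow mP 2) my4)) (RC_mul (RC_mul mP mA) mx3)
    have mR9 : RC R9 := by
      rw [hR9]
      exact RC_add (RC_add (RC_add (RC_add (RC_add (RC_add (RC_add (RC_two (RC_mul mx3 mZ2))
        (RC_mul (RC_pow mA 2) mx3)) (RC_two (RC_mul (RC_mul mP mx2) my4)))
        (RC_two (RC_mul mB mx4))) (RC_mul (RC_mul mP mx3) mB)) (RC_mul (RC_pow mx2 2) mN))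
        (RC_mul (RC_mul mP mN) mB)) (RC_three (RC_mul (RC_pow mP 3) my4))
    have h1 : ((3 : ℕ) : Ser) * L2 = 3 * ((N * (1 + P + P ^ 2) + g4 * (1 + P)) * E)
        + 3 * (R8 * E) + Tt * R9 * E + 3 * (Tt * Gs * Ev) + E * Y + 3 * (Tt * (E * Zs - Ev)) := by
      rw [hL2, hQ, hY, hR8, hR9]
      push_cast
      linear_combination (3 * E * (N * (1 + P + P ^ 2) + g4 * (1 + P)) + 3 * E * (N * P ^ 3
        + g4 * P ^ 2)) * hT + 3 * E * s8 + Tt * E * s9
    rw [h1]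
    have m1 : RC ((N * (1 + P + P ^ 2) + g4 * (1 + P)) * E) :=
      RC_mul (RC_add (RC_mul mN (RC_add (RC_add RC_one mP) (RC_pow mP 2)))
        (RC_mul mg4 (RC_add RC_one mP))) mE
    exact RC_add (RC_add (RC_add (RC_add (RC_add (RC_three m1) (RC_three (RC_mul mR8 mE)))
      (RC_mul (RC_mul mT mR9) mE)) (RC_three (RC_mul (RC_mul mT mG) RC_Ev))) (RC_mul mE mY))
      (RC_three (RC_mul mT mEZ))
  rw [d7]
  exact RC_add mL1 mL2

end Pool.Agent.H23.TC
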