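import Mathlib
import Pool.Agent.H23.TC.Comb
import Pool.Graph.R_pool_sql_team_seeded_c8625f6e.K4H7.SN.Prod

/-!
# Three-cycles in symmetric groups
-/

set_option autoImplicit false
set_option linter.unusedSectionVars false
set_option linter.unusedVariables false
set_option linter.unusedSimpArgs false
set_option linter.style.haveILetI false

namespace Pool.Agent.H23.TC

open Equiv Equiv.Perm MvPolynomial Pool.Agent.K4H7.SN Pool.Agent.R389
open Pool.Agent.K4H7
open Pool.Agent.H302R2 (IsHeilbronn)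
open scoped Nat

lemma three_bb : 3 * bb = X 1 ^ 3 - X 3 := by
  have h := three_pl_LL 1
  rw [pl_one, one_mul] at h
  exact h

/-- **The final positivity.** -/
theorem three_pos (n : ℕ) (hn : 3 ≤ n) : ∃ r ∈ RP n,
    (3 : ℂ)⁻¹ • ((X 1 : Lam) ^ n + 2 * (X 3 * X 1 ^ (n - 3))) = hh n + r := by
  have h1 := RC_main n
  rw [map_sub] at h1
  obtain ⟨r, hr, e⟩ := Qs_La n
  refine ⟨_, AddSubmonoid.add_mem _ h1 (RP_of hr), ?_⟩
  rw [e]
  have h2 : PowerSeries.coeff n Fs = X 1 ^ n - 2 * (bb * X 1 ^ (n - 3)) := by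
    have h3 : Fs = Tt - (PowerSeries.monomial 3 bb * Tt + PowerSeries.monomial 3 bb * Tt) := by
      rw [Fs, mo_eq]; ring
    rw [h3, map_sub, map_add, coeff_monomial_mul', if_pos hn, Tt, PowerSeries.coeff_mk,
      PowerSeries.coeff_mk]
    ring
  rw [h2]
  have h4 : (X 1 : Lam) ^ n = X 1 ^ 3 * X 1 ^ (n - 3) := by
    rw [← pow_add]
    congr 1
    omega
  have h3C : (3 : Lam) ≠ 0 := by
    have : ((3 : ℕ) : Lam) ≠ 0 := by exact_mod_cast (by norm_num : (3 : ℕ) ≠ 0)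
    exact_mod_cast this
  apply mul_left_cancel₀ h3C
  have h5 : (3 : Lam) * ((3 : ℂ)⁻¹ • ((X 1 : Lam) ^ n + 2 * (X 3 * X 1 ^ (n - 3))))
      = (X 1 : Lam) ^ n + 2 * (X 3 * X 1 ^ (n - 3)) := by
    rw [mul_smul_comm]
    have : (3 : Lam) * ((X 1 : Lam) ^ n + 2 * (X 3 * X 1 ^ (n - 3)))
        = (3 : ℂ) • ((X 1 : Lam) ^ n + 2 * (X 3 * X 1 ^ (n - 3))) := by
      rw [Algebra.smul_def, map_ofNat]
    rw [this, smul_smul, inv_mul_cancel₀ three_ne_zero, one_smul]
  rw [h5, h4]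
  linear_combination (2 * (X 1 : Lam) ^ (n - 3)) * three_bb

section functional

variable {n : ℕ} {θ : Perm (Fin n) → ℂ} (hθ : IsHeilbronn θ)

include hθ

lemma TH_RP {r : Lam} (hr : r ∈ RP n) : 0 ≤ (TH θ r).re := by
  refine AddSubmonoid.closure_induction (motive := fun f _ => 0 ≤ (TH θ f).re) ?_ ?_ ?_ hr
  · rintro f ⟨c, hc, g, hg, rfl⟩
    obtain ⟨m, hm⟩ := TH_PP hθ hg
    rw [map_smul, smul_eq_mul, hm, Complex.re_ofReal_mul, Complex.natCast_re]
    positivity
  · rw [map_zero, Complex.zero_re]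
  · intro f g _ _ h1 h2
    rw [map_add, Complex.add_re]
    exact add_nonneg h1 h2

/-- **Three-cycles in symmetric groups.** -/
theorem heil_three (t : Perm (Fin n)) (ht : t.IsThreeCycle) :
    ((n ! : ℕ) : ℝ)⁻¹ * (∑ g : Perm (Fin n), θ g).re ≤ ((θ 1).re + 2 * (θ t).re) / 3 := by
  have h1 : wt (X : ℕ → Lam) (1 : Perm (Fin n)) = X 1 ^ n := by
    rw [wt, parts]
    simp
  have hct : t.cycleType = {3} := ht
  have hn : 3 ≤ n := by
    have := sum_cycleType_le t
    rw [hct, Multiset.sum_singleton, Fintype.card_fin] at this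
    exact this
  have h2 : wt (X : ℕ → Lam) t = X 3 * X 1 ^ (n - 3) := by
    rw [wt, parts, hct]
    simp
  obtain ⟨r, hr, e⟩ := three_pos n hn
  rw [← h1, ← h2] at e
  have hm := TH_RP hθ hr
  have e' := congrArg (TH θ) e
  have e2 : (2 : Lam) * wt X t = (2 : ℂ) • wt X t := by rw [Algebra.smul_def, map_ofNat]
  rw [e2, map_smul, map_add, map_add, map_smul, TH_wt hθ, TH_wt hθ, TH_hh hθ, smul_eq_mul,
    smul_eq_mul] at e'
  have e3 := congrArg Complex.re e'
  have e4 : ((3 : ℂ)⁻¹ * (θ 1 + 2 * θ t)).re = ((θ 1).re + 2 * (θ t).re) / 3 := by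
    have : ((3 : ℂ)⁻¹ * (θ 1 + 2 * θ t)) = (((3 : ℝ)⁻¹ : ℝ) : ℂ) * (θ 1 + ((2 : ℝ) : ℂ) * θ t) := by
      push_cast
      ring
    rw [this, Complex.re_ofReal_mul, Complex.add_re, Complex.re_ofReal_mul]
    ring
  have e5 : (((n ! : ℕ) : ℂ)⁻¹ * ∑ g : Perm (Fin n), θ g).re
      = ((n ! : ℕ) : ℝ)⁻¹ * (∑ g : Perm (Fin n), θ g).re := by
    have : ((n ! : ℕ) : ℂ)⁻¹ = ((((n ! : ℕ) : ℝ)⁻¹ : ℝ) : ℂ) := by push_cast; rfl
    rw [this, Complex.re_ofReal_mul]
  rw [e4, Complex.add_re, e5] at e3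
  linarith

end functional

/-- the subgroup generated by a three-cycle is dominant -/
theorem dm_three {n : ℕ} {t : Perm (Fin n)} (ht : t.IsThreeCycle) :
    Dm (Subgroup.zpowers t) := by
  classical
  have : Fintype (Subgroup.zpowers t) := Fintype.ofFinite _
  refine DZ.dm_of_le fun θ hθ => ?_
  have h1 := heil_three hθ t ht
  have ho : orderOf t = 3 := ht.orderOf
  have hcard : Nat.card (Perm (Fin n)) = n ! := by
    rw [Nat.card_eq_fintype_card, Fintype.card_perm, Fintype.card_fin]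
  have hU : Nat.card (Subgroup.zpowers t) = 3 := by rw [Nat.card_zpowers, ho]
  have hinv : θ t⁻¹ = θ t := by
    have h2 : t.cycleType = t⁻¹.cycleType := by rw [cycleType_inv]
    obtain ⟨c, hc⟩ := isConj_iff.mp (isConj_iff_cycleType_eq.mpr h2)
    rw [← hc]
    exact hθ.conj _ _
  have hsum : ∑ u : Subgroup.zpowers t, θ u = θ 1 + 2 * θ t := by
    have h3 : ∑ u : Subgroup.zpowers t, θ u = ∑ i ∈ Finset.range (orderOf t), θ (t ^ i) := by
      rw [← Fin.sum_univ_eq_sum_range (fun i => θ (t ^ i))]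
      exact ((finEquivZPowers (isOfFinOrder_of_finite t)).sum_comp
        (fun u : Subgroup.zpowers t => θ u)).symm
    have h4 : t ^ 2 = t⁻¹ := by
      have h5 : t ^ 3 = 1 := by rw [← ho, pow_orderOf_eq_one]
      rw [eq_inv_iff_mul_eq_one, ← pow_succ, h5]
    rw [h3, ho, Finset.sum_range_succ, Finset.sum_range_succ, Finset.sum_range_one, pow_zero,
      pow_one, h4, hinv]
    ring
  have hre : (∑ u : Subgroup.zpowers t, θ u).re = (θ 1).re + 2 * (θ t).re := by
    rw [hsum, Complex.add_re]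
    have : (2 : ℂ) * θ t = ((2 : ℝ) : ℂ) * θ t := by push_cast; rfl
    rw [this, Complex.re_ofReal_mul]
  rw [hre, hU, hcard]
  have h6 : (0 : ℝ) < (n ! : ℕ) := by exact_mod_cast Nat.factorial_pos n
  rw [inv_mul_le_iff₀ h6] at h1
  push_cast at h1 ⊢
  linarith

/-- subgroups of order at most two, and the subgroups generated by three-cycles -/
def Sm {n : ℕ} (U : Subgroup (Perm (Fin n))) : Prop :=
  Nat.card U ≤ 2 ∨ ∃ t : Perm (Fin n), t.IsThreeCycle ∧ U = Subgroup.zpowers t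

lemma Sm.dm {n : ℕ} {U : Subgroup (Perm (Fin n))} (h : Sm U) : Dm U := by
  rcases h with h | ⟨t, ht, rfl⟩
  · exact dm_perm h
  · exact dm_three ht

lemma Sm.comm {n : ℕ} {U : Subgroup (Perm (Fin n))} (h : Sm U) (x y : U) : x * y = y * x := by
  rcases h with h | ⟨t, ht, rfl⟩
  · exact comm_of_card_le_two h x y
  · obtain ⟨x, i, rfl⟩ := x
    obtain ⟨y, j, rfl⟩ := y
    apply Subtype.ext
    change t ^ i * t ^ j = t ^ j * t ^ i
    rw [← zpow_add, ← zpow_add, add_comm]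

open Pool.Agent.H541R3.ART Pool.Agent.K4H7.DZ

/-- **Main theorem.** -/
theorem main_prod {G : Type} [Group G] [Finite G] (M N : Subgroup G) [(N.subgroupOf M).Normal]
    (r : ℕ) (n : Fin r → ℕ)
    (π : (M ⧸ N.subgroupOf M) →* ∀ j, Equiv.Perm (Fin (n j))) (hπ : Function.Surjective π)
    (hs : Group.IsSolvable π.ker) (V : Subgroup G) (hNV : N ≤ V) (hVM : V ≤ M)
    (hV : ∀ j, Sm ((V.subgroupOf M).map
      ((Pi.evalMonoidHom (fun j => Equiv.Perm (Fin (n j))) j).comp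
        (π.comp (QuotientGroup.mk' (N.subgroupOf M))))))
    (s₀ : ℂ) (A : ArtinData G s₀) (ρ : M →* ℂˣ) :
    meromorphicOrderAt (A.Lin M ρ) s₀
      ≤ meromorphicOrderAt (A.Lin V (ρ.comp (Subgroup.inclusion hVM))) s₀ := by
  classical
  let P : Fin r → Type := fun j => Equiv.Perm (Fin (n j))
  let U : ∀ j, Subgroup (P j) := fun j => (V.subgroupOf M).map
      ((Pi.evalMonoidHom P j).comp (π.comp (QuotientGroup.mk' (N.subgroupOf M))))
  have hU : ∀ j, Dm (U j) := fun j => (hV j).dm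
  have hW : Dm (W U r) := dm_W hU r le_rfl
  have hWc : ∀ a b : W U r, a * b = b * a := by
    intro a b
    apply Subtype.ext
    funext j
    have ha : a.1 j ∈ U j := a.2 j j.2
    have hb : b.1 j ∈ U j := b.2 j j.2
    exact congrArg Subtype.val ((hV j).comm ⟨a.1 j, ha⟩ ⟨b.1 j, hb⟩)
  have hWs : Group.IsSolvable (W U r) := Group.isSolvable_of_comm hWc
  refine order_of_Dm M N ((W U r).comap π) (hW.comap hπ) (solv_comap hs hWs) A V hVM hNV ?_ ρ
  intro v hv
  rw [Subgroup.mem_comap, mem_W]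
  intro j _
  exact ⟨⟨v, hVM hv⟩, hv, rfl⟩

end Pool.Agent.H23.TC
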